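import Mathlib

namespace Pool.Agent.Results.MP_207c40_pr.Golden
open MeasureTheory ProbabilityTheory Measure Finset Filter Topology Real
open scoped ENNReal Classical

noncomputable section

/-- `μ` is the law of the stationary Markov chain with marginal `p` and transition matrix `P` -/
structure IsChain {S : Type} [MeasurableSpace S] (μ : Measure (ℤ → S)) (p : S → ℝ)
    (P : S → S → ℝ) : Prop where
  prob : IsProbabilityMeasure μ
  cyl : ∀ (i : ℤ) (n : ℕ) (u : ℕ → S), μ.real {x | ∀ k ≤ n, x (i + k) = u k} =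
    p (u 0) * ∏ k ∈ range n, P (u k) (u (k + 1))

/-- Shannon entropy `E[-log ν{a}]` (infinite unless `ν` is purely atomic) -/
def H {A : Type} [MeasurableSpace A] (ν : Measure A) : ℝ≥0∞ :=
  ∫⁻ a, if ν {a} = 0 then ∞ else ENNReal.ofReal (-log (ν.real {a})) ∂ν

/-- entropy of a stationary process: block entropy per symbol -/
def HasEntropy {S : Type} [MeasurableSpace S] (μ : Measure (ℤ → S)) (h : ℝ≥0∞) : Prop :=
  Tendsto (fun n : ℕ => H (μ.map fun x (k : Fin n) => x k) / n) atTop (𝓝 h)

def shift {A : Type} (k : ℤ) (y : ℤ → A) : ℤ → A := fun i => y (i + k)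

/-- `φ(y)_0` is determined by `y_{-r}, …, y_r` -/
def Det {A S : Type} [MeasurableSpace A] (Q : Measure (ℤ → A)) (φ : (ℤ → A) → ℤ → S)
    (y : ℤ → A) (r : ℕ) : Prop :=
  ∀ᵐ y' ∂Q, (∀ i : ℤ, |i| ≤ r → y' i = y i) → φ y' 0 = φ y 0

/-- `μ` is a factor of the i.i.d. process with marginal `ν`, coding window with exponential tails -/
def ExpFactor {A S : Type} [MeasurableSpace A] [MeasurableSpace S] (ν : Measure A)
    (μ : Measure (ℤ → S)) : Prop :=
  ∃ φ : (ℤ → A) → ℤ → S, Measurable φ ∧
    (∀ k, ∀ᵐ y ∂infinitePi fun _ : ℤ => ν, φ (shift k y) = shift k (φ y)) ∧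
    (infinitePi fun _ : ℤ => ν).map φ = μ ∧ ∃ C c : ℝ, 0 < c ∧ ∀ r : ℕ,
      (infinitePi fun _ : ℤ => ν).real {y | ¬ Det (infinitePi fun _ : ℤ => ν) φ y r} ≤
        C * exp (-c * r)

section obstruction
variable {A : Type} [MeasurableSpace A] [StandardBorelSpace A] {ν : Measure A}
  [IsProbabilityMeasure ν] {g : ℝ}

omit [StandardBorelSpace A] in
lemma mp (k : ℤ) : MeasurePreserving (shift k) (infinitePi fun _ : ℤ => ν) (infinitePi fun _ : ℤ => ν) :=
  ⟨by unfold shift; fun_prop, map_infinitePi_infinitePi_of_inj (P := fun _ : ℤ => ν)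
    (f := fun i => i + k) (add_left_injective k)⟩

lemma mν : Measurable fun a => ν {a} := by
  convert measurable_measure_prodMk_left (ν := ν) (measurableSet_diagonal (α := A)) using 3
  ext; simp [eq_comm]

def X (ν : Measure A) (g : ℝ) (a : A) : ℝ := log (ν.real {a}) - log g

lemma mX : Measurable (X ν g) := mν.ennreal_toReal.log.sub_const _

omit [StandardBorelSpace A] in
lemma Xle (a : A) : X ν g a ≤ -log g := by
  have := log_nonpos (measureReal_nonneg (μ := ν) (s := {a})) measureReal_le_one
  unfold X; linarith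

lemma atom (hH : H ν = .ofReal (-log g)) : ∀ᵐ a ∂ν, ν {a} ≠ 0 := by
  have : H ν ≠ ∞ := hH ▸ ENNReal.ofReal_ne_top
  filter_upwards [ae_lt_top (.ite (mν (measurableSet_singleton 0)) measurable_const
    mν.ennreal_toReal.log.neg.ennreal_ofReal) this] with a ha h0
  simp [h0] at ha

lemma mean (hg : g ≤ 1) (hg0 : 0 ≤ g) (hH : H ν = .ofReal (-log g)) :
    Integrable (X ν g) ν ∧ ∫ a, X ν g a ∂ν = 0 := by
  have nn : ∀ a, 0 ≤ -log (ν.real {a}) := fun a =>
    neg_nonneg.2 (log_nonpos measureReal_nonneg measureReal_le_one)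
  have e : ∫⁻ a, ENNReal.ofReal (-log (ν.real {a})) ∂ν = .ofReal (-log g) := by
    rw [← hH]; exact lintegral_congr_ae ((atom hH).mono fun a ha => by simp [ha])
  have m : AEStronglyMeasurable (fun a => -log (ν.real {a})) ν :=
    mν.ennreal_toReal.log.neg.aestronglyMeasurable
  have i : Integrable (fun a => -log (ν.real {a})) ν :=
    ⟨m, (hasFiniteIntegral_iff_ofReal (.of_forall nn)).2 (e ▸ ENNReal.ofReal_lt_top)⟩
  have v := integral_eq_lintegral_of_nonneg_ae (.of_forall nn) m
  rw [e, ENNReal.toReal_ofReal (neg_nonneg.2 (log_nonpos hg0 hg)), integral_neg, neg_inj] at v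
  have i' : Integrable (fun a => log (ν.real {a})) ν := by simpa using i.neg
  refine ⟨i'.sub (integrable_const _), ?_⟩
  unfold X; rw [integral_sub i' (integrable_const _), v]; simp

lemma big (hg : g < 1) (hg0 : 1 / 2 < g) (hH : H ν = .ofReal (-log g)) {θ : ℝ} (hθ : 0 < θ) :
    1 < ∫ a, exp (θ * X ν g a) ∂ν := by
  obtain ⟨i, z⟩ := mean hg.le (by linarith) hH
  have ie : Integrable (fun a => exp (θ * X ν g a)) ν :=
    .of_bound (mX.const_mul θ).exp.aestronglyMeasurable (exp (θ * -log g)) (.of_forall fun a => by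
      rw [norm_of_nonneg (exp_pos _).le]; gcongr; exact Xle a)
  have i2 : Integrable (fun a => θ * X ν g a + 1) ν := (i.const_mul θ).add (integrable_const _)
  have e : ∫ a, exp (θ * X ν g a) - (θ * X ν g a + 1) ∂ν = ∫ a, exp (θ * X ν g a) ∂ν - 1 := by
    rw [integral_sub ie i2, integral_add (i.const_mul θ) (integrable_const _), integral_const_mul, z]
    simp
  have nn : 0 ≤ fun a => exp (θ * X ν g a) - (θ * X ν g a + 1) := fun a =>
    sub_nonneg.2 (add_one_le_exp _)
  by_contra hc
  have := (integral_eq_zero_iff_of_nonneg nn (ie.sub i2)).1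
    (le_antisymm (by rw [e]; linarith) (integral_nonneg nn))
  have k : ∀ᵐ a ∂ν, ν.real {a} = g := by
    filter_upwards [this, atom hH] with a h1 h2
    by_contra h3
    have : θ * X ν g a ≠ 0 := mul_ne_zero hθ.ne' (sub_ne_zero.2 fun h => h3 (log_injOn_pos
      (ENNReal.toReal_pos h2 (measure_ne_top _ _)) (by simp; linarith) h))
    have := add_one_lt_exp this
    simp only [Pi.zero_apply] at h1; linarith
  obtain ⟨a, ha⟩ := k.exists
  have h1 : ν {a}ᶜ ≠ 0 := fun h => by
    have := measureReal_compl (μ := ν) (measurableSet_singleton a)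
    simp only [measureReal_def, h] at this ha; simp at this; linarith
  obtain ⟨b, hb, hb'⟩ := exists_mem_of_measure_ne_zero_of_ae h1 (ae_restrict_of_ae k)
  have := measureReal_union (μ := ν) (Set.disjoint_singleton.2 (Ne.symm hb))
    (measurableSet_singleton b)
  linarith [measureReal_le_one (μ := ν) (s := {a} ∪ {b})]

lemma layer {T h θ : ℝ} (hh : 0 ≤ h) (hθ : 0 ≤ θ) {N : ℕ} (hT : T ≤ N * h) :
    exp (θ * T) ≤ exp (θ * h) + ∑ r ∈ range N,
      exp (θ * ((2 * r + 3) * h)) * if (2 * r + 1) * h < T then 1 else 0 := by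
  have ex : ∃ j : ℕ, T ≤ (2 * j + 1) * h := ⟨N, hT.trans (by gcongr; linarith [N.cast_nonneg (α := ℝ)])⟩
  have nn : ∀ r ∈ range N, 0 ≤ exp (θ * ((2 * r + 3) * h)) * if (2 * r + 1) * h < T then 1 else 0 :=
    fun r _ => by positivity
  have h1 := Nat.find_spec ex
  have h2 : Nat.find ex ≤ N := Nat.find_min' _ (hT.trans (by gcongr; linarith [N.cast_nonneg (α := ℝ)]))
  have h3 := @Nat.find_min _ _ ex
  rcases e : Nat.find ex with _ | r <;> rw [e] at h1 h2 h3
  · exact le_add_of_le_of_nonneg (by gcongr; simpa using h1) (sum_nonneg nn)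
  · refine le_add_of_nonneg_of_le (exp_pos _).le (le_trans ?_ (single_le_sum nn (mem_range.2 h2)))
    rw [if_pos (not_le.1 (h3 r.lt_succ_self)), mul_one]
    gcongr; push_cast at h1; linarith

lemma obs {μ : Measure (ℤ → Bool)} (hg : g < 1) (hg0 : 1 / 2 < g)
    (hμ : ∀ (i : ℤ) (n : ℕ) (u : ℕ → Bool), μ.real {x | ∀ k ≤ n, x (i + k) = u k} ≤ g ^ n)
    (hH : H ν = .ofReal (-log g)) : ¬ ExpFactor ν μ := by
  rintro ⟨φ, mφ, hφ, rfl, C, c, hc, hC⟩
  have hh : 0 < -log g := neg_pos.2 (log_neg (by linarith) hg)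
  set h := -log g with hdef
  have hθ : 0 < c / (2 * h) := by positivity
  set θ := c / (2 * h) with θdef
  have hm := big hg hg0 hH hθ
  set m := ∫ a, exp (θ * X ν g a) ∂ν
  let T : ℕ → (ℤ → A) → ℝ := fun N y => ∑ i ∈ range N, X ν g (y i)
  have mT : ∀ N, Measurable (T N) := fun N =>
    Finset.measurable_sum _ fun i _ => mX.comp (measurable_pi_apply _)
  have Tle : ∀ N y, T N y ≤ N * h := fun N y => by
    simpa using sum_le_card_nsmul (range N) _ h fun i _ => Xle (y i)
  have C0 : 0 ≤ C := by simpa using measureReal_nonneg.trans (hC 0)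
  have bad : ∀ N r : ℕ, (infinitePi fun _ : ℤ => ν).real {y | (2 * r + 1) * h < T N y} ≤ N * (C * exp (-c * r)) := by
    intro N r
    rcases le_or_gt N (2 * r) with hN | hN
    · rw [Set.eq_empty_of_forall_notMem (s := {y | _ < T N y}) fun y hy => ?_, measureReal_empty]
      · positivity
      have : (N : ℝ) ≤ 2 * r := by exact_mod_cast hN
      exact not_le.2 hy ((Tle N y).trans (by gcongr; linarith))
    obtain ⟨n, rfl⟩ := Nat.exists_eq_add_of_lt hN
    have sub : {y | (2 * r + 1) * h < T (2 * r + n + 1) y} ≤ᵐ[(infinitePi fun _ : ℤ => ν)]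
        ⋃ k ∈ range (n + 1), shift (r + k) ⁻¹' {y | ¬ Det (infinitePi fun _ : ℤ => ν) φ y r} := by
      filter_upwards [ae_all_iff.2 fun i : ℤ =>
        (measurePreserving_eval_infinitePi (fun _ : ℤ => ν) i).quasiMeasurePreserving.ae (atom hH)]
        with y hy hb
      by_contra hcon
      have good : ∀ k ≤ n, Det (infinitePi fun _ : ℤ => ν) φ (shift (r + k) y) r := fun k hk => by
        by_contra h'
        exact hcon (Set.mem_biUnion (mem_coe.2 (mem_range.2 (Nat.lt_succ_of_le hk))) h')
      have s2 : Set.pi ((range (2 * r + n + 1)).image (↑) : Finset ℤ) (fun i => {y i}) ≤ᵐ[(infinitePi fun _ : ℤ => ν)]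
          φ ⁻¹' {x | ∀ k ≤ n, x (r + k) = φ (shift (r + k) y) 0} := by
        filter_upwards [ae_all_iff.2 hφ, ae_all_iff.2 fun k : Fin (n + 1) =>
          (mp (r + k)).quasiMeasurePreserving.ae (good k (Nat.le_of_lt_succ k.2))]
          with z h1 h2 h3 k hk
        rw [← h2 ⟨k, Nat.lt_succ_of_le hk⟩ fun i hi => ?_, h1, shift, zero_add]
        obtain ⟨hi1, hi2⟩ := abs_le.1 hi
        exact h3 _ (mem_coe.2 (mem_image.2 ⟨(i + (r + k)).toNat, mem_range.2 (by omega), by
          simp only; omega⟩))
      have s3 := (ENNReal.toReal_mono (measure_ne_top _ _) (measure_mono_ae s2)).trans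
        ((map_measureReal_apply mφ (by measurability)).symm.trans_le
          (hμ r n fun k => φ (shift (r + k) y) 0))
      rw [infinitePi_pi _ fun _ _ => measurableSet_singleton _, ENNReal.toReal_prod,
        prod_image fun _ _ _ _ h => Nat.cast_injective h] at s3
      have pos : ∀ i : ℤ, 0 < (ν {y i}).toReal := fun i =>
        ENNReal.toReal_pos (hy i) (measure_ne_top _ _)
      have s4 := log_le_log (prod_pos fun i _ => pos _) s3
      rw [log_prod fun i _ => (pos _).ne', log_pow] at s4
      replace hb : (2 * r + 1) * h < T (2 * r + n + 1) y := hb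
      simp only [T, X, sum_sub_distrib, sum_const, card_range, nsmul_eq_mul, measureReal_def] at hb
      push_cast at hb; rw [hdef] at hb; linarith
    refine ((ENNReal.toReal_mono (measure_ne_top _ _) (measure_mono_ae sub)).trans
      (measureReal_biUnion_finset_le _ _)).trans ((sum_le_card_nsmul _ _ (C * exp (-c * r))
        fun k _ => le_trans ?_ (hC r)).trans ?_)
    · refine ENNReal.toReal_mono (measure_ne_top _ _) ?_
      exact (le_map_apply (mp _).aemeasurable _).trans_eq (by rw [(mp _).map_eq])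
    · rw [card_range, nsmul_eq_mul]; gcongr; omega
  have main : ∀ N : ℕ, m ^ N ≤ exp (θ * h) + C * exp (θ * (3 * h)) * N ^ 2 := fun N => by
    have e1 : ∫ y, exp (θ * T N y) ∂(infinitePi fun _ : ℤ => ν) = m ^ N := by
      have := ((iIndepFun_infinitePi (P := fun _ : ℤ => ν) (X := fun _ a => exp (θ * X ν g a))
        fun _ => (mX.const_mul θ).exp).precomp (g := fun k : Fin N => ((k : ℕ) : ℤ))
        fun a b h => Fin.ext (Nat.cast_injective h)).integral_fun_prod_eq_prod_integral
        fun i => ((mX.const_mul θ).exp.comp (measurable_pi_apply _)).aestronglyMeasurable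
      simp only [T, mul_sum, exp_sum, prod_range]
      have e : ∀ i : ℤ, ∫ y, exp (θ * X ν g (y i)) ∂(infinitePi fun _ : ℤ => ν) = m := fun i => by
        have q := measurePreserving_eval_infinitePi (fun _ : ℤ => ν) i
        rw [← integral_map (f := fun a => exp (θ * X ν g a)) q.aemeasurable
          (mX.const_mul θ).exp.aestronglyMeasurable, q.map_eq]
      rw [this]
      simp [e]
    have ms : ∀ r : ℕ, MeasurableSet {y | (2 * r + 1) * h < T N y} := fun r =>
      measurableSet_lt measurable_const (mT N)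
    have ii : ∀ r : ℕ, Integrable (fun y => exp (θ * ((2 * r + 3) * h)) *
        if (2 * r + 1) * h < T N y then (1 : ℝ) else 0) (infinitePi fun _ : ℤ => ν) := fun r =>
      ((integrable_const (1 : ℝ)).indicator (ms r)).const_mul _
    have is := integrable_finsetSum (range N) fun r _ => ii r
    rw [← e1]
    refine (integral_mono_of_nonneg (.of_forall fun _ => (exp_pos _).le)
      ((integrable_const _).add is) (.of_forall fun y => layer hh.le hθ.le (Tle N y))).trans ?_
    rw [integral_add' (integrable_const _) is, integral_finsetSum _ fun r _ => ii r]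
    simp only [integral_const, probReal_univ, one_smul, integral_const_mul]
    gcongr
    refine (sum_le_card_nsmul _ _ (C * exp (θ * (3 * h)) * N) fun r _ => ?_).trans_eq
      (by simp; ring)
    have e2 : ∫ y, (if (2 * r + 1) * h < T N y then (1 : ℝ) else 0) ∂(infinitePi fun _ : ℤ => ν) =
        (infinitePi fun _ : ℤ => ν).real {y | (2 * r + 1) * h < T N y} := integral_indicator_one (ms r)
    have e3 : exp (θ * ((2 * r + 3) * h)) * exp (-c * r) = exp (θ * (3 * h)) := by
      rw [← exp_add]; congr 1; rw [θdef]; field_simp; ring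
    rw [e2, ← e3]
    exact (mul_le_mul_of_nonneg_left (bad N r) (exp_pos _).le).trans_eq (by ring)
  have t := ((tendsto_pow_const_div_const_pow_of_one_lt 0 hm).const_mul (exp (θ * h))).add
    ((tendsto_pow_const_div_const_pow_of_one_lt 2 hm).const_mul (C * exp (θ * (3 * h))))
  have := ge_of_tendsto' t (b := 1) fun N => by
    have p : 0 < m ^ N := by positivity
    rw [← mul_div_assoc, ← mul_div_assoc, ← add_div, one_le_div p]
    simpa using main N
  norm_num at this

end obstruction

def g : ℝ := (√5 - 1) / 2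

lemma gg : g ^ 2 + g = 1 := by
  have := sq_sqrt (show (0 : ℝ) ≤ 5 by norm_num); unfold g; nlinarith
lemma g0 : 1 / 2 < g := by
  have := lt_sqrt_of_sq_lt (show (2 : ℝ) ^ 2 < 5 by norm_num); unfold g; linarith
lemma g1 : g < 1 := by nlinarith [gg, g0]

def p (a : Bool) : ℝ := (if a then g ^ 2 else 1) / (1 + g ^ 2)
def P (a b : Bool) : ℝ := if a then (if b then 0 else 1) else if b then g ^ 2 else g
def β : Measure Bool := Ber(true, false, ⟨g ^ 2, by positivity, by nlinarith [gg, g0]⟩)
instance : IsProbabilityMeasure β := by unfold β; infer_instance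

abbrev R : Measure (ℤ → Bool) := infinitePi fun _ : ℤ => β

def M (y : ℤ → Bool) (n : ℤ) : Bool :=
  decide (∃ j : ℕ, y (n - (2 * j + 1 : ℕ)) = false ∧ ∀ k : ℕ, k ≤ 2 * j → y (n - k) = true)

lemma mM (n : ℤ) : Measurable[cylinderEvents (Set.Iic n)] fun y => M y n := by
  have m : ∀ (k : ℕ) b, MeasurableSet[cylinderEvents (Set.Iic n)]
      {y : ℤ → Bool | y (n - k) = b} := fun k b =>
    measurable_cylinderEvent_apply (X := fun _ => Bool) (by simp) (measurableSet_singleton b)
  refine @measurable_to_bool _ (cylinderEvents _) _ ?_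
  have : (fun y => M y n) ⁻¹' {true} = ⋃ j : ℕ, {y | y (n - (2 * j + 1 : ℕ)) = false} ∩
      ⋂ k : ℕ, ⋂ _ : k ≤ 2 * j, {y | y (n - k) = true} := by ext; simp [M]
  rw [this]
  exact .iUnion fun j => (m _ _).inter (.iInter fun k => .iInter fun _ => m _ _)

lemma mM' : Measurable M := measurable_pi_lambda _ fun n => (mM n).mono cylinderEvents_le_pi le_rfl

lemma step {y : ℤ → Bool} {n : ℤ} (h : ∃ k : ℕ, y (n - k) = false) :
    M y (n + 1) = (y (n + 1) && !M y n) := by
  have h1 := Nat.find_spec h
  have h2 : ∀ k < Nat.find h, y (n - k) = true := fun k hk => by simpa using Nat.find_min h hk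
  generalize Nat.find h = L at h1 h2
  have uniq : ∀ l : ℕ, y (n - l) = false → (∀ k < l, y (n - k) = true) → l = L := fun l a b => by
    rcases lt_trichotomy l L with c | c | c
    · simp [h2 l c] at a
    · exact c
    · simp [b L c] at h1
  have e : ∀ k : ℕ, n + 1 - (k + 1 : ℕ) = n - k := fun k => by push_cast; ring
  have A : M y n = true ↔ Odd L := by
    simp only [M, decide_eq_true_eq]
    exact ⟨fun ⟨j, a, b⟩ => ⟨j, (uniq _ a fun k hk => b k (by omega)).symm⟩,
      fun ⟨j, hj⟩ => ⟨j, hj ▸ h1, fun k hk => h2 k (by omega)⟩⟩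
  rw [Bool.eq_iff_iff, Bool.and_eq_true, Bool.not_eq_true', ← Bool.not_eq_true, A,
    Nat.not_odd_iff_even]
  simp only [M, decide_eq_true_eq, e]
  refine ⟨fun ⟨j, a, b⟩ => ⟨by simpa using b 0 (by omega), j, ?_⟩, fun ⟨a, j, hj⟩ =>
    ⟨j, by rwa [two_mul, ← hj], fun k hk => ?_⟩⟩
  · rw [← two_mul, uniq _ a fun k hk => by rw [← e]; exact b _ (by omega)]
  · rcases k with _ | k
    · simpa using a
    · rw [e]; exact h2 k (by omega)

lemma βt : β.real {true} = g ^ 2 := by simp [β]
lemma βf : β.real {false} = g := by simp [β]; linarith [gg]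

lemma past : ∀ᵐ y ∂(R), ∀ n : ℤ, ∃ k : ℕ, y (n - k) = false := ae_all_iff.2 fun n => by
  have : (R).real {y | ¬∃ k : ℕ, y (n - k) = false} ≤ 0 := by
    refine ge_of_tendsto' (tendsto_pow_atTop_nhds_zero_of_lt_one (r := g ^ 2) (by positivity)
      (by nlinarith [gg, g0])) fun m => (measureReal_mono (s₂ := Set.pi ((range m).image
      fun k : ℕ => n - k) fun _ => {true}) fun y hy j hj => ?_).trans_eq ?_
    · obtain ⟨k, -, rfl⟩ := mem_image.1 hj
      simpa using fun h => hy ⟨k, h⟩
    rw [measureReal_def, infinitePi_pi _ fun _ _ => measurableSet_singleton _,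
      prod_image fun _ _ _ _ h => by simpa using h, prod_const, card_range, ENNReal.toReal_pow,
      ← measureReal_def, βt]
  exact (measureReal_eq_zero_iff (measure_ne_top _ _)).1 (le_antisymm this measureReal_nonneg)

lemma markov {n : ℤ} {E : Set (ℤ → Bool)} (hE : MeasurableSet[cylinderEvents (Set.Iic n)] E)
    {a : Bool} (ha : ∀ y ∈ E, M y n = a) (b : Bool) :
    (R).real (E ∩ {y | M y (n + 1) = b}) = (R).real E * P a b := by
  have i : Indep (cylinderEvents (Set.Iic n)) (cylinderEvents {n + 1}) R :=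
    indep_iSup_of_disjoint (fun i => (measurable_pi_apply i).comap_le)
      (iIndepFun_infinitePi (X := fun _ x => x) fun _ => measurable_id).iIndep (by simp)
  have e : (E ∩ {y | M y (n + 1) = b} : Set _) =ᵐ[R]
      (E ∩ (fun y => y (n + 1)) ⁻¹' {c | (c && !a) = b} : Set _) := by
    filter_upwards [past] with y hy
    refine propext (and_congr_right fun h => ?_)
    change M y (n + 1) = b ↔ (y (n + 1) && !a) = b
    rw [step (hy n), ha y h]
  have hF : MeasurableSet[cylinderEvents {n + 1}]
      ((fun y : ℤ → Bool => y (n + 1)) ⁻¹' {c | (c && !a) = b}) :=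
    measurable_cylinderEvent_apply (X := fun _ => Bool) (Set.mem_singleton _) .of_discrete
  have h1 := (Indep_iff _ _ _).1 i _ _ hE hF
  have h2 : (R) ((fun y : ℤ → Bool => y (n + 1)) ⁻¹' {c | (c && !a) = b}) = β {c | (c && !a) = b} :=
    (measurePreserving_eval_infinitePi (fun _ : ℤ => β) (n + 1)).measure_preimage
      MeasurableSet.of_discrete.nullMeasurableSet
  have h3 : β.real {c | (c && !a) = b} = P a b := by
    cases a <;> cases b <;> simp [P, βt, βf]
    simp [β]
  rw [measureReal_congr e, measureReal_def, h1, h2, ENNReal.toReal_mul, ← h3]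
  rfl

lemma marg (n : ℤ) (a : Bool) : (R).real {y | M y n = a} = p a := by
  have m : ∀ n a, MeasurableSet[cylinderEvents (Set.Iic n)] {y | M y n = a} := fun n a =>
    mM n (measurableSet_singleton a)
  have m' : ∀ n a, MeasurableSet {y | M y n = a} := fun n a => cylinderEvents_le_pi _ (m n a)
  have c : ∀ n, (R).real {y | M y n = false} = 1 - (R).real {y | M y n = true} := fun n => by
    rw [← probReal_compl_eq_one_sub (m' n true)]; congr 1; ext; simp
  have gp : 0 < 1 + g ^ 2 := by positivity
  have r : ∀ n, (R).real {y | M y (n + 1) = true} - p true =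
      -g ^ 2 * ((R).real {y | M y n = true} - p true) := fun n => by
    have h1 := markov (m n true) (fun _ h => h) true
    have h2 := markov (m n false) (fun _ h => h) true
    have h3 := measureReal_inter_add_sdiff (μ := R) (s := {y | M y (n + 1) = true}) (m' n true)
    rw [Set.inter_comm, h1, show {y | M y (n + 1) = true} \ {y | M y n = true} =
      {y | M y n = false} ∩ {y | M y (n + 1) = true} by ext; simp [and_comm], h2, c] at h3
    rw [← h3]; simp only [P, p, if_true, Bool.false_eq_true, if_false]; field_simp; ring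
  have b : ∀ (k : ℕ) n, |(R).real {y | M y n = true} - p true| ≤ (g ^ 2) ^ k := fun k => by
    induction k with
    | zero =>
      have h1 : 0 ≤ p true := by unfold p; positivity
      have h2 : p true ≤ 1 := (div_le_one gp).2 (by simp)
      exact fun n => abs_le.2 ⟨by linarith [measureReal_nonneg (μ := R) (s := {y | M y n = true})],
        by linarith [measureReal_le_one (μ := R) (s := {y | M y n = true})]⟩
    | succ k ih =>
      intro n
      rw [← sub_add_cancel n 1, r, abs_mul, abs_neg, abs_of_nonneg (sq_nonneg g), pow_succ' _ k]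
      gcongr; exact ih _
  have t : (R).real {y | M y n = true} = p true := sub_eq_zero.1 (abs_nonpos_iff.1 (ge_of_tendsto'
    (tendsto_pow_atTop_nhds_zero_of_lt_one (by positivity) (by nlinarith [gg, g0])) (b · n)))
  cases a
  · rw [c, t]; simp only [p, if_true, Bool.false_eq_true, if_false]; field_simp; ring
  · exact t

def W (u : ℕ → Bool) (n : ℕ) : ℝ := p (u 0) * ∏ k ∈ range n, P (u k) (u (k + 1))

lemma chain : IsChain ((R).map M) p P := by
  refine ⟨isProbabilityMeasure_map mM'.aemeasurable, fun i n u => ?_⟩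
  rw [map_measureReal_apply mM' (by measurability)]
  induction n with
  | zero => simpa using marg i (u 0)
  | succ n ih =>
    have hE : MeasurableSet[cylinderEvents (Set.Iic (i + n))]
        (M ⁻¹' {x | ∀ k ≤ n, x (i + k) = u k}) := by
      rw [show M ⁻¹' {x | ∀ k ≤ n, x (i + k) = u k} = ⋂ k, ⋂ _ : k ≤ n, {y | M y (i + k) = u k} by
        ext; simp]
      exact .iInter fun k => .iInter fun hk => cylinderEvents_mono (Set.Iic_subset_Iic.2 (by omega))
        _ (mM _ (measurableSet_singleton _))
    rw [prod_range_succ, ← mul_assoc, ← ih, ← markov hE (fun y hy => hy n le_rfl)]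
    congr 1; ext y
    simp only [Set.mem_preimage, Set.mem_ofPred, Set.mem_inter_iff, add_assoc]
    exact ⟨fun h => ⟨fun k hk => h k (by omega), by exact_mod_cast h _ le_rfl⟩,
      fun h k hk => (Nat.of_le_succ hk).elim (h.1 k) fun e => by rw [e]; exact_mod_cast h.2⟩

lemma Wb (u : ℕ → Bool) (n : ℕ) : W u n = 0 ∨ g ^ (n + 4) ≤ W u n ∧ W u n ≤ g ^ n := by
  have a0 : 0 < g := by linarith [g0]
  have k : W u n = 0 ∨ W u n = (if u 0 then g else 1) / (1 + g ^ 2) * (if u n then g else 1) *
      g ^ n := by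
    induction n with
    | zero => right; cases h : u 0 <;> simp [W, p, h]; ring
    | succ n ih =>
      rw [W, prod_range_succ, ← mul_assoc, ← W]
      rcases ih with h | h <;> rw [h]
      · simp
      · cases u n <;> cases u (n + 1) <;> simp only [P, if_true, Bool.false_eq_true, if_false]
        · right; ring
        · right; ring
        · right; ring
        · left; ring
  refine k.imp_right fun h => ?_
  have b : ∀ a : Bool, g ≤ (if a then g else 1) ∧ (if a then g else 1) ≤ 1 := fun a => by
    cases a <;> simp [g1.le]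
  have c1 : g ^ 2 ≤ 1 / (1 + g ^ 2) := by
    rw [le_div_iff₀ (by positivity)]; nlinarith [gg, g0]
  have c2 : 1 / (1 + g ^ 2) ≤ 1 := (div_le_one (by positivity)).2 (by nlinarith)
  rw [h, div_eq_mul_one_div]
  constructor
  · rw [show g ^ (n + 4) = g * g ^ 2 * g * g ^ n by ring]
    gcongr
    exacts [(b _).1, (b _).1]
  · refine mul_le_of_le_one_left (by positivity) (mul_le_one₀ (mul_le_one₀ (b _).2
      (by positivity) c2) (a0.le.trans (b _).1) (b _).2)

lemma ent : HasEntropy ((R).map M) (.ofReal (-log g)) := by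
  have a0 : 0 < g := by linarith [g0]
  have hh : 0 < -log g := neg_pos.2 (log_neg a0 g1)
  have := chain.prob
  have key : ∀ n : ℕ, ∀ᵐ w ∂((R).map M).map fun x (k : Fin (n + 1)) => x k,
      (if (((R).map M).map fun x (k : Fin (n + 1)) => x k) {w} = 0 then ∞ else ENNReal.ofReal
        (-log ((((R).map M).map fun x (k : Fin (n + 1)) => x k).real {w}))) ∈
      Set.Icc (ENNReal.ofReal (n * -log g)) (ENNReal.ofReal ((n + 4) * -log g)) := fun n => by
    refine ae_iff_of_countable.2 fun w hw => ?_
    rw [if_neg hw]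
    have e : (((R).map M).map fun x (k : Fin (n + 1)) => x k).real {w} =
        W (fun k => w (Fin.ofNat _ k)) n := by
      rw [map_measureReal_apply (by fun_prop) (measurableSet_singleton _), W,
        ← chain.cyl 0 n fun k => w (Fin.ofNat _ k)]
      congr 1; ext x
      simp only [Set.mem_preimage, Set.mem_singleton_iff, funext_iff, Set.mem_ofPred, zero_add]
      exact ⟨fun h k hk => by rw [← h]; simp [Nat.mod_eq_of_lt (Nat.lt_succ_of_le hk)],
        fun h k => by simpa using h k (Nat.le_of_lt_succ k.2)⟩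
    rcases Wb (fun k => w (Fin.ofNat _ k)) n with h | ⟨h1, h2⟩
    · rw [← e, measureReal_eq_zero_iff (measure_ne_top _ _)] at h; exact absurd h hw
    have l1 := log_le_log (by positivity) h1
    have l2 := log_le_log ((pow_pos a0 _).trans_le h1) h2
    rw [log_pow] at l1 l2; push_cast at l1
    rw [e]
    exact ⟨ENNReal.ofReal_le_ofReal (by linarith), ENNReal.ofReal_le_ofReal (by linarith)⟩
  have lim : ∀ a : ℝ, Tendsto (fun n : ℕ => ENNReal.ofReal ((n + a) * -log g) / (n + 1 : ℕ)) atTop
      (𝓝 (.ofReal (-log g))) := fun a => by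
    have := ENNReal.tendsto_ofReal (((tendsto_one_div_add_atTop_nhds_zero_nat (𝕜 := ℝ)).const_mul
      ((a - 1) * -log g)).const_add (-log g))
    rw [mul_zero, add_zero] at this
    refine this.congr fun n => ?_
    rw [← ENNReal.ofReal_natCast, ← ENNReal.ofReal_div_of_pos (by positivity)]
    congr 1; push_cast; field_simp; ring
  refine (tendsto_add_atTop_iff_nat 1).1 (tendsto_of_tendsto_of_tendsto_of_le_of_le (lim 0) (lim 4)
    (fun n => ?_) fun n => ?_)
  all_goals
    have : IsProbabilityMeasure (((R).map M).map fun x (k : Fin (n + 1)) => x k) :=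
      isProbabilityMeasure_map (Measurable.aemeasurable (by fun_prop))
    refine ENNReal.div_le_div_right ?_ _
  · simpa [H] using lintegral_mono_ae ((key n).mono fun _ h => h.1)
  · simpa [H] using lintegral_mono_ae ((key n).mono fun _ h => h.2)

theorem result : ∃ (μ : Measure (ℤ → Bool)) (p : Bool → ℝ) (P : Bool → Bool → ℝ) (h : ℝ≥0∞),
    IsChain μ p P ∧ (∀ a, 0 < p a) ∧ (∀ a b, 0 ≤ P a b) ∧ (∀ a, ∑ b, P a b = 1) ∧
    (∀ a b, 0 < ∑ c, P a c * P c b) ∧ μ {x | x 1 ≠ false ∧ x 2 ≠ false} = 0 ∧
    h ≠ ∞ ∧ HasEntropy μ h ∧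
    ∀ (A : Type) [MeasurableSpace A] [StandardBorelSpace A] (ν : Measure A)
      [IsProbabilityMeasure ν], H ν = h → ¬ ExpFactor ν μ := by
  have a0 : 0 < g := by linarith [g0]
  have := chain.prob
  refine ⟨_, p, P, _, chain, fun a => by unfold p; positivity, fun a b => by unfold P; positivity,
    fun a => by cases a <;> simp [P, gg], fun a b => by cases a <;> cases b <;> simp [P] <;> positivity,
    ?_, ENNReal.ofReal_ne_top, ent, fun A _ _ ν _ hH => obs g1 g0 (fun i n u => ?_) hH⟩
  · have := chain.cyl 1 1 fun _ => true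
    rw [← measureReal_eq_zero_iff (measure_ne_top _ _)]
    convert this using 2
    · ext x; simp [Nat.le_one_iff_eq_zero_or_eq_one]
    · simp [P]
  · rw [chain.cyl, ← W]
    rcases Wb u n with h | h
    · rw [h]; positivity
    · exact h.2

end

end Pool.Agent.Results.MP_207c40_pr.Golden
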